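import Mathlib
import Pool.Agent.H255.VSR.Main
set_option autoImplicit false

/-!
# MP_d9b8e4_co: the tower height of the ternary multicolour vector space Ramsey numbers

For every `t` the numbers `R_3(t;k)` are bounded by a tower of `2`s whose height does not depend on
`k`; in fact `R_3(t;k) ≤ twr_t(C t k)` for an absolute constant `C`.
-/

namespace Pool.Agent.Results.MP_d9b8e4_co.TowerHeight

open Pool.Agent.H255.VSR

/-- The points of `PG(n-1,3)`: the one-dimensional subspaces of `𝔽₃ⁿ`. -/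
abbrev Point (n : ℕ) : Type :=
  {L : Submodule (ZMod 3) (Fin n → ZMod 3) // Module.finrank (ZMod 3) L = 1}

/-- For every colouring of the points of `PG(n-1,3)` with `k` colours, some `(t-1)`-flat (the set of
points contained in a `t`-dimensional linear subspace `W`) has all its points of one colour. -/
def Arrow (t k n : ℕ) : Prop :=
  ∀ c : Point n → Fin k, ∃ W : Submodule (ZMod 3) (Fin n → ZMod 3),
    Module.finrank (ZMod 3) W = t ∧ ∃ κ : Fin k, ∀ p : Point n, p.1 ≤ W → c p = κ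

/-- The ternary multicolour vector space Ramsey number `R_3(t;k)`: the least `n` with
`Arrow t k n`. -/
noncomputable def R3 (t k : ℕ) : ℕ := sInf {n | Arrow t k n}

/-- The tower function: `twr 1 x = x` and `twr i x = 2 ^ twr (i-1) x` for `i ≥ 2` (the value at
`i = 0` is not used). -/
def twr : ℕ → ℕ → ℕ
  | 0, x => x
  | 1, x => x
  | i + 2, x => 2 ^ twr (i + 1) x

theorem arrow_of_mono (t k n : ℕ) (hk : 1 ≤ k)
    (h : ∀ c : (Fin n → ZMod 3) → Fin k, (∀ v, c (-v) = c v) → Mono t c) : Arrow t k n := by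
  classical
  intro c
  let c' : (Fin n → ZMod 3) → Fin k := fun v =>
    if hv : v ≠ 0 then c ⟨Submodule.span (ZMod 3) {v}, finrank_span_singleton hv⟩ else ⟨0, hk⟩
  have hsym : ∀ v, c' (-v) = c' v := by
    intro v
    by_cases hv : v = 0
    · subst hv; simp
    · have hv' : -v ≠ 0 := neg_ne_zero.2 hv
      simp only [c', dif_pos hv', dif_pos (show v ≠ 0 from hv)]
      congr 1
      apply Subtype.ext
      show Submodule.span (ZMod 3) {-v} = Submodule.span (ZMod 3) {v}
      rw [← Set.neg_singleton, Submodule.span_neg]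
  obtain ⟨W, hW, κ, hκ⟩ := h c' hsym
  refine ⟨W, hW, κ, fun p hp => ?_⟩
  have hne : p.1 ≠ ⊥ := by
    intro h0
    have := p.2
    rw [h0, finrank_bot] at this
    omega
  obtain ⟨v, hvp, hv0⟩ := (Submodule.ne_bot_iff _).1 hne
  have h1 : Submodule.span (ZMod 3) {v} = p.1 := by
    apply Submodule.eq_of_le_of_finrank_eq
    · rw [Submodule.span_le, Set.singleton_subset_iff]
      exact hvp
    · rw [finrank_span_singleton hv0, p.2]
  have h2 := hκ v (hp hvp) hv0
  simp only [c', dif_pos (show v ≠ 0 from hv0)] at h2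
  rw [← h2]
  congr 1
  exact Subtype.ext h1.symm

theorem twr_succ (i x : ℕ) : twr (i + 2) x = 2 ^ twr (i + 1) x := rfl

theorem twr_mono (i : ℕ) {x y : ℕ} (h : x ≤ y) : twr (i + 1) x ≤ twr (i + 1) y := by
  induction i with
  | zero => exact h
  | succ i ih => exact Nat.pow_le_pow_right (by norm_num) ih

theorem le_twr (i x : ℕ) : x ≤ twr (i + 1) x := by
  induction i with
  | zero => exact le_rfl
  | succ i ih => exact ih.trans (Nat.lt_pow_self (by norm_num)).le

theorem add_le_pow (y m : ℕ) : 2 ^ m + y ≤ 2 ^ (m + y) := by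
  have h1 : y + 1 ≤ 2 ^ y := Nat.lt_pow_self (by norm_num)
  have h2 : 1 ≤ 2 ^ m := Nat.one_le_pow _ _ (by norm_num)
  rw [pow_add]
  nlinarith

theorem twr_add (i x y : ℕ) : twr (i + 1) x + y ≤ twr (i + 1) (x + y) := by
  induction i with
  | zero => exact le_rfl
  | succ i ih =>
    rw [twr_succ, twr_succ]
    exact (add_le_pow y _).trans (Nat.pow_le_pow_right (by norm_num) ih)

theorem twr_mul (i x y : ℕ) : y * twr (i + 2) x ≤ twr (i + 2) (x + y) := by
  rw [twr_succ, twr_succ]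
  have h1 : y ≤ 2 ^ y := (Nat.lt_pow_self (by norm_num)).le
  calc y * 2 ^ twr (i + 1) x ≤ 2 ^ y * 2 ^ twr (i + 1) x := Nat.mul_le_mul_right _ h1
    _ = 2 ^ (twr (i + 1) x + y) := by rw [pow_add]; ring
    _ ≤ _ := Nat.pow_le_pow_right (by norm_num) (twr_add i x y)

theorem TT_le (C : ℕ) (hC : 1 ≤ C) (t k : ℕ) (hk : 1 ≤ k) :
    TT C (t + 1) k ≤ twr (t + 1) (C * (t + 1) * k) := by
  induction t with
  | zero =>
    show 1 ≤ C * (0 + 1) * k
    have := Nat.mul_pos hC hk
    rw [Nat.zero_add, Nat.mul_one]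
    exact this
  | succ t ih =>
    show 2 ^ (C * TT C (t + 1) k * k) ≤ 2 ^ twr (t + 1) (C * (t + 1 + 1) * k)
    apply Nat.pow_le_pow_right (by norm_num)
    rcases Nat.eq_zero_or_pos t with rfl | ht
    · show C * 1 * k ≤ C * (0 + 1 + 1) * k
      nlinarith [Nat.zero_le (C * k)]
    · obtain ⟨i, rfl⟩ : ∃ i, t = i + 1 := ⟨t - 1, by omega⟩
      calc C * TT C (i + 1 + 1) k * k = (C * k) * TT C (i + 1 + 1) k := by ring
        _ ≤ (C * k) * twr (i + 2) (C * (i + 1 + 1) * k) := Nat.mul_le_mul_left _ ih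
        _ ≤ twr (i + 2) (C * (i + 1 + 1) * k + C * k) := twr_mul i _ _
        _ = _ := by congr 1; ring

theorem mul_le_twr (m k : ℕ) (hk : 1 ≤ k) : m * k ≤ twr (m + 1) k := by
  induction m with
  | zero => simp
  | succ m ih =>
    have h1 := le_twr m k
    rw [twr_succ]
    set x := twr (m + 1) k
    obtain ⟨z, hz⟩ : ∃ z, x = z + 1 := ⟨x - 1, by omega⟩
    have h2 : z + 1 ≤ 2 ^ z := Nat.lt_pow_self (by norm_num)
    calc (m + 1) * k = m * k + k := by ring
      _ ≤ x + x := Nat.add_le_add ih h1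
      _ ≤ 2 ^ x := by rw [hz, pow_succ]; omega

theorem twr_twr (i j k : ℕ) : twr (i + 1) (twr (j + 1) k) = twr (i + j + 1) k := by
  induction i with
  | zero =>
    have e : 0 + j + 1 = j + 1 := by omega
    rw [e]
    rfl
  | succ i ih =>
    have e : i + 1 + j + 1 = (i + j) + 2 := by ring
    rw [twr_succ, ih, e, twr_succ]

/-- **Q1 (affirmative).** There is an absolute constant `C` such that for every `t ≥ 1` there is
`r`, not depending on `k`, such that for every positive integer `k` the number `R_3(t;k)` exists and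
`R_3(t;k) ≤ twr_t(C t k) ≤ twr_r(k)`. -/
theorem result : ∃ C : ℕ, ∀ t : ℕ, 1 ≤ t → ∃ r : ℕ, 1 ≤ r ∧ ∀ k : ℕ, 1 ≤ k →
    Arrow t k (R3 t k) ∧ R3 t k ≤ twr t (C * t * k) ∧ twr t (C * t * k) ≤ twr r k := by
  obtain ⟨C, hC, hmain⟩ := main
  refine ⟨C, fun t ht => ⟨t + C * t, by omega, fun k hk => ?_⟩⟩
  have h1 : Arrow t k (TT C t k) :=
    arrow_of_mono t k _ hk (fun c hc => hmain t k ht hk _ le_rfl c hc)
  have h2 : R3 t k ≤ TT C t k := Nat.sInf_le h1
  obtain ⟨s, rfl⟩ : ∃ s, t = s + 1 := ⟨t - 1, by omega⟩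
  refine ⟨Nat.sInf_mem (s := {n | Arrow (s + 1) k n}) ⟨_, h1⟩, h2.trans (TT_le C hC s k hk), ?_⟩
  refine (twr_mono s (mul_le_twr (C * (s + 1)) k hk)).trans (le_of_eq ?_)
  rw [twr_twr]
  congr 1
  ring

end Pool.Agent.Results.MP_d9b8e4_co.TowerHeight
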